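import Mathlib

/-!
# No invariant of unoriented framed links as in part (c)

Link diagrams are modelled by words in elementary pieces (maxima, minima, half twists), up to the
elementary moves of framed isotopy.  Closing up rational tangles inside a four strand diagram, the
cubic skein relation determines the values of the trivial link with two components and of the
Hopf link, and gives one more relation than unknowns, hence a polynomial condition on the
coefficients `a`, `x`, `y`.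
-/

namespace Pool.Agent.Results.MP_118c6a_gt.NoInvariantPartC

/-- The four elementary pieces of a link diagram cut by horizontal lines, read from top to bottom:
`birth` is a local maximum (a new arc opening downwards), `death` is a local minimum (it joins two
neighbouring strands), `right` is a right-handed half twist of two neighbouring strands (a crossing
which is positive when both strands are directed downwards), `left` is the left-handed half twist. -/
inductive Piece
  | birth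
  | death
  | right
  | left

/-- Number of strands entering the piece from above. -/
def Piece.ins : Piece → ℕ
  | .birth => 0
  | .death => 2
  | .right => 2
  | .left => 2

/-- Number of strands leaving the piece downwards. -/
def Piece.outs : Piece → ℕ
  | .birth => 2
  | .death => 0
  | .right => 2
  | .left => 2

/-- A word of pieces; `(p, i)` is the piece `p` with exactly `i` strands to its left. -/
abbrev Word : Type := List (Piece × ℕ)

/-- `Fits n w m`: the word `w` is a diagram going from `n` strands at the top to `m` strands at the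
bottom. -/
inductive Fits : ℕ → Word → ℕ → Prop
  | nil (n : ℕ) : Fits n [] n
  | cons (p : Piece) (i k : ℕ) (w : Word) (m : ℕ) (h : Fits (i + p.outs + k) w m) :
      Fits (i + p.ins + k) ((p, i) :: w) m

/-- A link diagram: a word from `0` strands to `0` strands. -/
def IsLink (w : Word) : Prop := Fits 0 w 0

open Piece in
/-- The elementary moves of framed (regular, plus exchange of curls of equal sign) isotopy of
unoriented diagrams: sliding distant pieces past each other, straightening a strand,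
Reidemeister II and III, sliding a strand under or over a local maximum or minimum, and replacing
a curl by the curl of the same sign on the other side of the strand. -/
inductive Move : Word → Word → Prop
  | interchange (e f : Piece) (i k : ℕ) :
      Move [(f, i + e.ins + k), (e, i)] [(e, i), (f, i + e.outs + k)]
  | zigzag_left (i : ℕ) : Move [(birth, i + 1), (death, i)] []
  | zigzag_right (i : ℕ) : Move [(birth, i), (death, i + 1)] []
  | r2_right (i : ℕ) : Move [(right, i), (left, i)] []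
  | r2_left (i : ℕ) : Move [(left, i), (right, i)] []
  | r3 (i : ℕ) : Move [(right, i), (right, i + 1), (right, i)]
      [(right, i + 1), (right, i), (right, i + 1)]
  | slide_max_under (i : ℕ) : Move [(birth, i + 1), (right, i)] [(birth, i), (left, i + 1)]
  | slide_max_over (i : ℕ) : Move [(birth, i + 1), (left, i)] [(birth, i), (right, i + 1)]
  | slide_min_over (i : ℕ) : Move [(right, i), (death, i + 1)] [(left, i + 1), (death, i)]
  | slide_min_under (i : ℕ) : Move [(left, i), (death, i + 1)] [(right, i + 1), (death, i)]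
  | curl_pos (i : ℕ) : Move [(birth, i + 1), (right, i), (death, i + 1)]
      [(birth, i), (right, i + 1), (death, i)]
  | curl_neg (i : ℕ) : Move [(birth, i + 1), (left, i), (death, i + 1)]
      [(birth, i), (left, i + 1), (death, i)]

/-- `P` is an invariant of unoriented framed links: it takes the same value on link diagrams which
differ by one elementary move. -/
def IsFramedInvariant {R : Type*} (P : Word → R) : Prop :=
  ∀ u l r v : Word, Move l r → IsLink (u ++ l ++ v) → IsLink (u ++ r ++ v) →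
    P (u ++ l ++ v) = P (u ++ r ++ v)


/-! ### Checking that a word is a diagram -/

/-- Executable version of `Fits`. -/
def run : Word → ℕ → Option ℕ
  | [], n => some n
  | (p, i) :: w, n => if i + p.ins ≤ n then run w (n - p.ins + p.outs) else none

lemma fits_of_run : ∀ (w : Word) (n m : ℕ), run w n = some m → Fits n w m
  | [], n, m, h => by
    simp only [run, Option.some.injEq] at h
    subst h
    exact Fits.nil n
  | (p, i) :: w, n, m, h => by
    simp only [run] at h
    split_ifs at h with hle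
    obtain ⟨k, rfl⟩ := Nat.exists_eq_add_of_le hle
    refine Fits.cons p i k w m (fits_of_run w _ m ?_)
    have : i + p.ins + k - p.ins + p.outs = i + p.outs + k := by omega
    rwa [this] at h

lemma Fits.append {n m l : ℕ} {u v : Word} (hu : Fits n u m) (hv : Fits m v l) :
    Fits n (u ++ v) l := by
  induction hu with
  | nil n => simpa using hv
  | cons p i k w m h ih => exact Fits.cons p i k (w ++ v) l (ih hv)

section

variable {R : Type*}

open Piece

/-- Applying a move inside a context `u`, `v` with `n` strands at the top and `m` strands at the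
bottom of the place where the move is applied. -/
lemma step {P : Word → R} (hP : IsFramedInvariant P) {n m : ℕ} {u v : Word} (hu : Fits 0 u n)
    (hv : Fits m v 0) (s l r t : Word) (hm : Move l r) {n' m' : ℕ} (hs : run s n = some n')
    (hl : run l n' = some m') (hr : run r n' = some m') (ht : run t m' = some m) :
    P (u ++ (s ++ l ++ t) ++ v) = P (u ++ (s ++ r ++ t) ++ v) := by
  have h1 : IsLink ((u ++ s) ++ l ++ (t ++ v)) := by
    have := (((hu.append (fits_of_run s _ _ hs)).append (fits_of_run l _ _ hl)).append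
      ((fits_of_run t _ _ ht).append hv))
    simpa [IsLink, List.append_assoc] using this
  have h2 : IsLink ((u ++ s) ++ r ++ (t ++ v)) := by
    have := (((hu.append (fits_of_run s _ _ hs)).append (fits_of_run r _ _ hr)).append
      ((fits_of_run t _ _ ht).append hv))
    simpa [IsLink, List.append_assoc] using this
  have := hP (u ++ s) l r (t ++ v) hm h1 h2
  simpa [List.append_assoc] using this


/-- Shorthand for the pieces. -/
abbrev B (i : ℕ) : Piece × ℕ := (birth, i)
abbrev D (i : ℕ) : Piece × ℕ := (death, i)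
abbrev X (i : ℕ) : Piece × ℕ := (right, i)
abbrev Y (i : ℕ) : Piece × ℕ := (left, i)

/-- The framing relation at maxima and minima: adding a positive kink multiplies `P` by `a`. -/
def Framing [CommRing R] (a : R) (P : Word → R) : Prop :=
  (∀ (u v : Word) (i : ℕ), IsLink (u ++ [(birth, i)] ++ v) →
    P (u ++ [(birth, i), (left, i)] ++ v) = a * P (u ++ [(birth, i)] ++ v)) ∧
  (∀ (u v : Word) (i : ℕ), IsLink (u ++ [(death, i)] ++ v) →
    P (u ++ [(left, i), (death, i)] ++ v) = a * P (u ++ [(death, i)] ++ v))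

variable [CommRing R] {P : Word → R} {a : R}

lemma kink_birth (hP : IsFramedInvariant P) (hF : Framing a P) {n m : ℕ} {u v : Word}
    (hu : Fits 0 u n) (hv : Fits m v 0) (s t : Word) (i : ℕ) {n' m' : ℕ} (hs : run s n = some n')
    (hl : run [B i] n' = some m')
    (hl3 : run [B i, Y i, X i] n' = some m') (hl4 : run [B i, X i] n' = some m')
    (ht : run t m' = some m) :
    a * P (u ++ (s ++ [B i, X i] ++ t) ++ v) = P (u ++ (s ++ [B i] ++ t) ++ v) := by
  have h1 : IsLink ((u ++ s) ++ [(birth, i)] ++ ([(right, i)] ++ (t ++ v))) := by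
    have := ((hu.append (fits_of_run s _ _ hs)).append (fits_of_run [B i, X i] _ _ hl4)).append
      ((fits_of_run t _ _ ht).append hv)
    simpa [IsLink, List.append_assoc] using this
  have h2 := hF.1 (u ++ s) ([(right, i)] ++ (t ++ v)) i h1
  have h3 : P (u ++ ((s ++ [B i]) ++ [Y i, X i] ++ t) ++ v)
      = P (u ++ ((s ++ [B i]) ++ [] ++ t) ++ v) := by
    have h4 : IsLink ((u ++ s ++ [B i]) ++ [Y i, X i] ++ (t ++ v)) := by
      have := ((hu.append (fits_of_run s _ _ hs)).append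
        (fits_of_run [B i, Y i, X i] _ _ hl3)).append ((fits_of_run t _ _ ht).append hv)
      simpa [IsLink, List.append_assoc] using this
    have h5 : IsLink ((u ++ s ++ [B i]) ++ [] ++ (t ++ v)) := by
      have := ((hu.append (fits_of_run s _ _ hs)).append
        (fits_of_run [B i] _ _ hl)).append ((fits_of_run t _ _ ht).append hv)
      simpa [IsLink, List.append_assoc] using this
    have := hP (u ++ s ++ [B i]) [Y i, X i] [] (t ++ v) (Move.r2_left i) h4 h5
    simpa [List.append_assoc] using this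
  simp only [List.append_assoc, List.cons_append, List.nil_append] at h2 h3 ⊢
  rw [← h2, h3]

lemma kink_death (hP : IsFramedInvariant P) (hF : Framing a P) {n m : ℕ} {u v : Word}
    (hu : Fits 0 u n) (hv : Fits m v 0) (s t : Word) (i : ℕ) {n' m' : ℕ} (hs : run s n = some n')
    (hl : run [D i] n' = some m')
    (hl3 : run [X i, Y i, D i] n' = some m') (hl4 : run [X i, D i] n' = some m')
    (ht : run t m' = some m) :
    a * P (u ++ (s ++ [X i, D i] ++ t) ++ v) = P (u ++ (s ++ [D i] ++ t) ++ v) := by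
  have h1 : IsLink (((u ++ s) ++ [(right, i)]) ++ [(death, i)] ++ (t ++ v)) := by
    have := ((hu.append (fits_of_run s _ _ hs)).append (fits_of_run [X i, D i] _ _ hl4)).append
      ((fits_of_run t _ _ ht).append hv)
    simpa [IsLink, List.append_assoc] using this
  have h2 := hF.2 ((u ++ s) ++ [(right, i)]) (t ++ v) i h1
  have h3 : P (u ++ (s ++ [X i, Y i] ++ ([D i] ++ t)) ++ v)
      = P (u ++ (s ++ [] ++ ([D i] ++ t)) ++ v) := by
    have h4 : IsLink ((u ++ s) ++ [X i, Y i] ++ ([D i] ++ (t ++ v))) := by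
      have := ((hu.append (fits_of_run s _ _ hs)).append
        (fits_of_run [X i, Y i, D i] _ _ hl3)).append ((fits_of_run t _ _ ht).append hv)
      simpa [IsLink, List.append_assoc] using this
    have h5 : IsLink ((u ++ s) ++ [] ++ ([D i] ++ (t ++ v))) := by
      have := ((hu.append (fits_of_run s _ _ hs)).append
        (fits_of_run [D i] _ _ hl)).append ((fits_of_run t _ _ ht).append hv)
      simpa [IsLink, List.append_assoc] using this
    have := hP (u ++ s) [X i, Y i] [] ([D i] ++ (t ++ v)) (Move.r2_right i) h4 h5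
    simpa [List.append_assoc] using this
  simp only [List.append_assoc, List.cons_append, List.nil_append] at h2 h3 ⊢
  rw [← h2, h3]

/-- The rational tangle identity. -/
lemma rational_identity (hP : IsFramedInvariant P) (hF : Framing a P) {n : ℕ} {u v : Word}
    (hn : n = 2 ∨ n = 4) (hu : Fits 0 u n) (hv : Fits n v 0) :
    a * P (u ++ [B 2, X 1, X 1, X 2, D 0] ++ v) = P (u ++ [B 2, Y 1, Y 1, D 0] ++ v) := by
  rcases hn with rfl | rfl
  · have e1 : P (u ++ [B 2, X 1, X 1, X 2, D 0] ++ v) = P (u ++ [B 1, Y 2, X 1, X 2, D 0] ++ v) :=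
      step hP hu hv [] [B 2, X 1] [B 1, Y 2] [X 1, X 2, D 0] (Move.slide_max_under 1) rfl rfl rfl rfl
    have e2 : P (u ++ [B 1, Y 2, X 1, X 2, X 1, Y 1, D 0] ++ v)
        = P (u ++ [B 1, Y 2, X 1, X 2, D 0] ++ v) :=
      step hP hu hv [B 1, Y 2, X 1, X 2] [X 1, Y 1] [] [D 0] (Move.r2_right 1) rfl rfl rfl rfl
    have e3 : P (u ++ [B 1, Y 2, X 1, X 2, X 1, Y 1, D 0] ++ v)
        = P (u ++ [B 1, Y 2, X 2, X 1, X 2, Y 1, D 0] ++ v) :=
      step hP hu hv [B 1, Y 2] [X 1, X 2, X 1] [X 2, X 1, X 2] [Y 1, D 0] (Move.r3 1) rfl rfl rfl rfl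
    have e4 : P (u ++ [B 1, Y 2, X 2, X 1, X 2, Y 1, D 0] ++ v)
        = P (u ++ [B 1, X 1, X 2, Y 1, D 0] ++ v) :=
      step hP hu hv [B 1] [Y 2, X 2] [] [X 1, X 2, Y 1, D 0] (Move.r2_left 2) rfl rfl rfl rfl
    have e5 : a * P (u ++ [B 1, X 1, X 2, Y 1, D 0] ++ v) = P (u ++ [B 1, X 2, Y 1, D 0] ++ v) :=
      kink_birth hP hF hu hv [] [X 2, Y 1, D 0] 1 rfl rfl rfl rfl rfl
    have e6 : P (u ++ [B 2, Y 1, Y 1, D 0] ++ v) = P (u ++ [B 1, X 2, Y 1, D 0] ++ v) :=
      step hP hu hv [] [B 2, Y 1] [B 1, X 2] [Y 1, D 0] (Move.slide_max_over 1) rfl rfl rfl rfl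
    rw [e1, ← e2, e3, e4, e5, e6]
  · have e1 : P (u ++ [B 2, X 1, X 1, X 2, D 0] ++ v) = P (u ++ [B 1, Y 2, X 1, X 2, D 0] ++ v) :=
      step hP hu hv [] [B 2, X 1] [B 1, Y 2] [X 1, X 2, D 0] (Move.slide_max_under 1) rfl rfl rfl rfl
    have e2 : P (u ++ [B 1, Y 2, X 1, X 2, X 1, Y 1, D 0] ++ v)
        = P (u ++ [B 1, Y 2, X 1, X 2, D 0] ++ v) :=
      step hP hu hv [B 1, Y 2, X 1, X 2] [X 1, Y 1] [] [D 0] (Move.r2_right 1) rfl rfl rfl rfl
    have e3 : P (u ++ [B 1, Y 2, X 1, X 2, X 1, Y 1, D 0] ++ v)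
        = P (u ++ [B 1, Y 2, X 2, X 1, X 2, Y 1, D 0] ++ v) :=
      step hP hu hv [B 1, Y 2] [X 1, X 2, X 1] [X 2, X 1, X 2] [Y 1, D 0] (Move.r3 1) rfl rfl rfl rfl
    have e4 : P (u ++ [B 1, Y 2, X 2, X 1, X 2, Y 1, D 0] ++ v)
        = P (u ++ [B 1, X 1, X 2, Y 1, D 0] ++ v) :=
      step hP hu hv [B 1] [Y 2, X 2] [] [X 1, X 2, Y 1, D 0] (Move.r2_left 2) rfl rfl rfl rfl
    have e5 : a * P (u ++ [B 1, X 1, X 2, Y 1, D 0] ++ v) = P (u ++ [B 1, X 2, Y 1, D 0] ++ v) :=
      kink_birth hP hF hu hv [] [X 2, Y 1, D 0] 1 rfl rfl rfl rfl rfl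
    have e6 : P (u ++ [B 2, Y 1, Y 1, D 0] ++ v) = P (u ++ [B 1, X 2, Y 1, D 0] ++ v) :=
      step hP hu hv [] [B 2, Y 1] [B 1, X 2] [Y 1, D 0] (Move.slide_max_over 1) rfl rfl rfl rfl
    rw [e1, ← e2, e3, e4, e5, e6]

/-- The cubic skein relation. -/
def Skein (b0 b1 b2 b3 : R) (P : Word → R) : Prop :=
  ∀ (u v : Word) (i : ℕ), IsLink (u ++ [(right, i)] ++ v) →
    b0 * P (u ++ v) + b1 * P (u ++ [(right, i)] ++ v) + b2 * P (u ++ [(right, i), (right, i)] ++ v)
      + b3 * P (u ++ [(right, i), (right, i), (right, i)] ++ v) = 0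

lemma skein_neg (hP : IsFramedInvariant P) {b0 b1 b2 b3 : R} (hS : Skein b0 b1 b2 b3 P) {n m : ℕ}
    {u v : Word} (hu : Fits 0 u n) (hv : Fits m v 0) (s t : Word) (i : ℕ) {n' : ℕ}
    (hs : run s n = some n') (hl : run [X i] n' = some n') (hl2 : run [Y i] n' = some n')
    (ht : run t n' = some m) :
    b0 * P (u ++ (s ++ [Y i] ++ t) ++ v) + b1 * P (u ++ (s ++ t) ++ v)
      + b2 * P (u ++ (s ++ [X i] ++ t) ++ v) + b3 * P (u ++ (s ++ [X i, X i] ++ t) ++ v) = 0 := by
  have fs := hu.append (fits_of_run s _ _ hs)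
  have ft := (fits_of_run t _ _ ht).append hv
  have fX := fits_of_run [X i] _ _ hl
  have fY := fits_of_run [Y i] _ _ hl2
  have h1 : IsLink ((u ++ s ++ [Y i]) ++ [(right, i)] ++ (t ++ v)) := by
    have := (fs.append fY).append (fX.append ft)
    simpa [IsLink, List.append_assoc] using this
  have h2 := hS (u ++ s ++ [Y i]) (t ++ v) i h1
  have k1 : P ((u ++ s) ++ [Y i, X i] ++ (t ++ v)) = P ((u ++ s) ++ [] ++ (t ++ v)) := by
    refine hP (u ++ s) [Y i, X i] [] (t ++ v) (Move.r2_left i) ?_ ?_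
    · have := (fs.append fY).append (fX.append ft)
      simpa [IsLink, List.append_assoc] using this
    · have := fs.append ft
      simpa [IsLink, List.append_assoc] using this
  have k2 : P ((u ++ s) ++ [Y i, X i] ++ ([X i] ++ (t ++ v)))
      = P ((u ++ s) ++ [] ++ ([X i] ++ (t ++ v))) := by
    refine hP (u ++ s) [Y i, X i] [] ([X i] ++ (t ++ v)) (Move.r2_left i) ?_ ?_
    · have := (fs.append fY).append (fX.append (fX.append ft))
      simpa [IsLink, List.append_assoc] using this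
    · have := fs.append (fX.append ft)
      simpa [IsLink, List.append_assoc] using this
  have k3 : P ((u ++ s) ++ [Y i, X i] ++ ([X i, X i] ++ (t ++ v)))
      = P ((u ++ s) ++ [] ++ ([X i, X i] ++ (t ++ v))) := by
    refine hP (u ++ s) [Y i, X i] [] ([X i, X i] ++ (t ++ v)) (Move.r2_left i) ?_ ?_
    · have := (fs.append fY).append (fX.append (fX.append (fX.append ft)))
      simpa [IsLink, List.append_assoc] using this
    · have := fs.append (fX.append (fX.append ft))
      simpa [IsLink, List.append_assoc] using this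
  simp only [List.append_assoc, List.cons_append, List.nil_append] at h2 k1 k2 k3 ⊢
  rw [k1, k2, k3] at h2
  exact h2


/-- Two cups, opening four strands. -/
abbrev cups : Word := [B 0, B 1]

lemma fits_cups : Fits 0 cups 4 := fits_of_run _ _ _ rfl

/-- The relation obtained by eliminating rational tangles with two crossings in the other
direction. -/
lemma four_strand (hP : IsFramedInvariant P) (hF : Framing a P) {b1 b2 b3 : R}
    (hS : Skein 1 b1 b2 b3 P) {v : Word} (hv : Fits 4 v 0) :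
    (b1 - b2 * b3) * (b3 * P (cups ++ [B 2, D 0] ++ v) - a * P (cups ++ [] ++ v))
      - (a * b2 + b1 * b3 ^ 2) * P (cups ++ [X 0] ++ v)
      - (a + b3 ^ 3) * P (cups ++ [Y 0] ++ v) = 0 := by
  have hu := fits_cups
  -- first skein relation
  have s1 := skein_neg hP hS hu hv [B 2] [X 2, D 0] 1 rfl rfl rfl rfl
  have m1 : P (cups ++ [B 2, Y 1, X 2, D 0] ++ v) = P (cups ++ [B 1, X 2, X 2, D 0] ++ v) :=
    step hP hu hv [] [B 2, Y 1] [B 1, X 2] [X 2, D 0] (Move.slide_max_over 1) rfl rfl rfl rfl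
  have m2 : P (cups ++ [B 1, X 2, X 2, D 0] ++ v) = P (cups ++ [B 1, X 2, D 0, X 0] ++ v) :=
    step hP hu hv [B 1, X 2] [X 2, D 0] [D 0, X 0] [] (Move.interchange death right 0 0)
      rfl rfl rfl rfl
  have m3 : P (cups ++ [B 1, X 2, D 0, X 0] ++ v) = P (cups ++ [B 1, D 0, X 0, X 0] ++ v) :=
    step hP hu hv [B 1] [X 2, D 0] [D 0, X 0] [X 0] (Move.interchange death right 0 0)
      rfl rfl rfl rfl
  have m4 : P (cups ++ [B 1, D 0, X 0, X 0] ++ v) = P (cups ++ [X 0, X 0] ++ v) :=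
    step hP hu hv [] [B 1, D 0] [] [X 0, X 0] (Move.zigzag_left 0) rfl rfl rfl rfl
  have m5 : a * P (cups ++ [B 2, X 2, D 0] ++ v) = P (cups ++ [B 2, D 0] ++ v) :=
    kink_birth hP hF hu hv [] [D 0] 2 rfl rfl rfl rfl rfl
  have m6 : P (cups ++ [B 2, X 1, X 2, D 0] ++ v) = P (cups ++ [B 1, Y 2, X 2, D 0] ++ v) :=
    step hP hu hv [] [B 2, X 1] [B 1, Y 2] [X 2, D 0] (Move.slide_max_under 1) rfl rfl rfl rfl
  have m7 : P (cups ++ [B 1, Y 2, X 2, D 0] ++ v) = P (cups ++ [B 1, D 0] ++ v) :=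
    step hP hu hv [B 1] [Y 2, X 2] [] [D 0] (Move.r2_left 2) rfl rfl rfl rfl
  have m8 : P (cups ++ [B 1, D 0] ++ v) = P (cups ++ [] ++ v) :=
    step hP hu hv [] [B 1, D 0] [] [] (Move.zigzag_left 0) rfl rfl rfl rfl
  have m9 := rational_identity hP hF (Or.inr rfl) hu hv
  -- second skein relation
  have s2 := skein_neg hP hS hu hv [B 2, Y 1] [D 0] 1 rfl rfl rfl rfl
  have m10 : P (cups ++ [B 2, Y 1, X 1, D 0] ++ v) = P (cups ++ [B 2, D 0] ++ v) :=
    step hP hu hv [B 2] [Y 1, X 1] [] [D 0] (Move.r2_left 1) rfl rfl rfl rfl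
  have m11 : P (cups ++ [B 2, Y 1, X 1, X 1, D 0] ++ v) = P (cups ++ [B 2, X 1, D 0] ++ v) :=
    step hP hu hv [B 2] [Y 1, X 1] [] [X 1, D 0] (Move.r2_left 1) rfl rfl rfl rfl
  have m12 : P (cups ++ [B 2, X 0, D 1] ++ v) = P (cups ++ [B 2, Y 1, D 0] ++ v) :=
    step hP hu hv [B 2] [X 0, D 1] [Y 1, D 0] [] (Move.slide_min_over 0) rfl rfl rfl rfl
  have m13 : P (cups ++ [B 2, X 0, D 1] ++ v) = P (cups ++ [X 0, B 2, D 1] ++ v) :=
    step hP hu hv [] [B 2, X 0] [X 0, B 2] [D 1] (Move.interchange right birth 0 0)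
      rfl rfl rfl rfl
  have m14 : P (cups ++ [X 0, B 2, D 1] ++ v) = P (cups ++ [X 0] ++ v) :=
    step hP hu hv [X 0] [B 2, D 1] [] [] (Move.zigzag_left 1) rfl rfl rfl rfl
  have m15 : P (cups ++ [B 2, Y 0, D 1] ++ v) = P (cups ++ [B 2, X 1, D 0] ++ v) :=
    step hP hu hv [B 2] [Y 0, D 1] [X 1, D 0] [] (Move.slide_min_under 0) rfl rfl rfl rfl
  have m16 : P (cups ++ [B 2, Y 0, D 1] ++ v) = P (cups ++ [Y 0, B 2, D 1] ++ v) :=
    step hP hu hv [] [B 2, Y 0] [Y 0, B 2] [D 1] (Move.interchange left birth 0 0)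
      rfl rfl rfl rfl
  have m17 : P (cups ++ [Y 0, B 2, D 1] ++ v) = P (cups ++ [Y 0] ++ v) :=
    step hP hu hv [Y 0] [B 2, D 1] [] [] (Move.zigzag_left 1) rfl rfl rfl rfl
  -- third skein relation
  have s3 := skein_neg hP hS hu hv [] [] 0 rfl rfl rfl rfl
  simp only [List.cons_append, List.nil_append] at *
  rw [m1, m2, m3, m4, m6, m7, m8] at s1
  rw [m10, m11, ← m12, m13, m14, ← m15, m16, m17] at s2
  linear_combination (a * b3) * s1 - b3 ^ 2 * s2 - a * s3 - b1 * b3 * m5 - b3 ^ 2 * m9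

/-- The two diagrams of the Hopf link with the framings of its two standard mirror diagrams have
the same value. -/
lemma hopf (hP : IsFramedInvariant P) (hF : Framing a P) :
    P [B 0, B 1, X 0, X 0, D 1, D 0] = P [B 0, B 1, Y 0, Y 0, D 1, D 0] := by
  have h0 : Fits 0 [] 0 := Fits.nil 0
  have e1 : P [B 0, B 1, X 0, X 0, D 1, D 0] = P [B 0, B 1, X 0, Y 1, D 0, D 0] :=
    step hP h0 h0 [B 0, B 1, X 0] [X 0, D 1] [Y 1, D 0] [D 0] (Move.slide_min_over 0)
      rfl rfl rfl rfl
  have e2 : P [B 0, B 1, X 0, Y 1, D 0, D 0] = P [B 0, B 0, Y 1, Y 1, D 0, D 0] :=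
    step hP h0 h0 [B 0] [B 1, X 0] [B 0, Y 1] [Y 1, D 0, D 0] (Move.slide_max_under 0)
      rfl rfl rfl rfl
  have e3 : P [B 0, B 0, Y 1, Y 1, D 0, D 0] = P [B 0, B 2, Y 1, Y 1, D 0, D 0] :=
    step hP h0 h0 [] [B 0, B 0] [B 0, B 2] [Y 1, Y 1, D 0, D 0] (Move.interchange birth birth 0 0)
      rfl rfl rfl rfl
  have e4 : P [B 0, B 1, Y 0, Y 0, D 1, D 0] = P [B 0, B 1, Y 0, X 1, D 0, D 0] :=
    step hP h0 h0 [B 0, B 1, Y 0] [Y 0, D 1] [X 1, D 0] [D 0] (Move.slide_min_under 0)
      rfl rfl rfl rfl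
  have e5 : P [B 0, B 1, Y 0, X 1, D 0, D 0] = P [B 0, B 0, X 1, X 1, D 0, D 0] :=
    step hP h0 h0 [B 0] [B 1, Y 0] [B 0, X 1] [X 1, D 0, D 0] (Move.slide_max_over 0)
      rfl rfl rfl rfl
  have e6 : P [B 0, B 0, X 1, X 1, D 0, D 0] = P [B 0, B 2, X 1, X 1, D 0, D 0] :=
    step hP h0 h0 [] [B 0, B 0] [B 0, B 2] [X 1, X 1, D 0, D 0] (Move.interchange birth birth 0 0)
      rfl rfl rfl rfl
  have e7 : a * P [B 0, B 2, X 1, X 1, X 2, D 0, D 0] = P [B 0, B 2, Y 1, Y 1, D 0, D 0] :=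
    rational_identity hP hF (n := 2) (u := [B 0]) (v := [D 0]) (Or.inl rfl)
      (fits_of_run _ _ _ rfl) (fits_of_run _ _ _ rfl)
  have e8 : P [B 0, B 2, X 1, X 1, X 2, D 0, D 0] = P [B 0, B 2, X 1, X 1, D 0, X 0, D 0] :=
    step hP h0 h0 [B 0, B 2, X 1, X 1] [X 2, D 0] [D 0, X 0] [D 0]
      (Move.interchange death right 0 0) rfl rfl rfl rfl
  have e9 : a * P [B 0, B 2, X 1, X 1, D 0, X 0, D 0] = P [B 0, B 2, X 1, X 1, D 0, D 0] :=
    kink_death hP hF h0 h0 [B 0, B 2, X 1, X 1, D 0] [] 0 rfl rfl rfl rfl rfl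
  rw [e1, e2, e3, ← e7, e8, e9, e4, e5, e6]

/-- The algebraic condition on the coefficients. -/
lemma obstruction (hP : IsFramedInvariant P) (hF : Framing a P) {b1 b2 b3 : R}
    (hS : Skein 1 b1 b2 b3 P) (hN : P [B 0, D 0] = 1) :
    a * (b1 - b2 * b3) ^ 2 * ((a + b3 ^ 3) * (b3 - a ^ 3)
        - a * (a * b2 + b1 * b3 ^ 2) * (a * b3 - 1))
      - ((a + b3 ^ 3) ^ 2 - (a * b2 + b1 * b3 ^ 2) ^ 2)
        * (a * (b1 - b2 * b3) * b3 - a ^ 2 * (a * b2 + b1 * b3 ^ 2) - (a + b3 ^ 3)) = 0 := by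
  have h0 : Fits 0 [] 0 := Fits.nil 0
  -- the values with at most one crossing
  have c1 : P [B 0, B 1, D 0, D 0] = P [B 0, D 0] :=
    step hP h0 h0 [B 0] [B 1, D 0] [] [D 0] (Move.zigzag_left 0) rfl rfl rfl rfl
  have c2 : P [B 0, B 0, D 1, D 0] = P [B 0, D 0] :=
    step hP h0 h0 [B 0] [B 0, D 1] [] [D 0] (Move.zigzag_right 0) rfl rfl rfl rfl
  have t1 : P [B 0, B 1, X 0, D 1, D 0] = a := by
    have e1 : P [B 0, B 1, X 0, D 1, D 0] = P [B 0, B 1, Y 1, D 0, D 0] :=
      step hP h0 h0 [B 0, B 1] [X 0, D 1] [Y 1, D 0] [D 0] (Move.slide_min_over 0)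
        rfl rfl rfl rfl
    have e2 : P [B 0, B 1, Y 1, D 0, D 0] = a * P [B 0, B 1, D 0, D 0] :=
      hF.1 [B 0] [D 0, D 0] 1 (fits_of_run _ _ _ rfl)
    rw [e1, e2, c1, hN, mul_one]
  have t2 : a * P [B 0, B 1, Y 0, D 1, D 0] = 1 := by
    have e1 : P [B 0, B 1, Y 0, D 1, D 0] = P [B 0, B 1, X 1, D 0, D 0] :=
      step hP h0 h0 [B 0, B 1] [Y 0, D 1] [X 1, D 0] [D 0] (Move.slide_min_under 0)
        rfl rfl rfl rfl
    have e2 : a * P [B 0, B 1, X 1, D 0, D 0] = P [B 0, B 1, D 0, D 0] :=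
      kink_birth hP hF h0 h0 [B 0] [D 0, D 0] 1 rfl rfl rfl rfl rfl
    rw [e1, e2, c1, hN]
  have i0 : P [B 0, B 1, B 2, D 0, D 1, D 0] = 1 := by
    have e1 : P [B 0, B 1, B 2, D 0, D 1, D 0] = P [B 0, B 1, D 0, B 0, D 1, D 0] :=
      step hP h0 h0 [B 0, B 1] [B 2, D 0] [D 0, B 0] [D 1, D 0]
        (Move.interchange death birth 0 0) rfl rfl rfl rfl
    have e2 : P [B 0, B 1, D 0, B 0, D 1, D 0] = P [B 0, B 0, D 1, D 0] :=
      step hP h0 h0 [B 0] [B 1, D 0] [] [B 0, D 1, D 0] (Move.zigzag_left 0) rfl rfl rfl rfl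
    rw [e1, e2, c2, hN]
  have i1 : a * P [B 0, B 1, B 2, D 0, X 0, D 1, D 0] = 1 := by
    have e1 : P [B 0, B 1, B 2, D 0, X 0, D 1, D 0] = P [B 0, B 1, D 0, B 0, X 0, D 1, D 0] :=
      step hP h0 h0 [B 0, B 1] [B 2, D 0] [D 0, B 0] [X 0, D 1, D 0]
        (Move.interchange death birth 0 0) rfl rfl rfl rfl
    have e2 : P [B 0, B 1, D 0, B 0, X 0, D 1, D 0] = P [B 0, B 0, X 0, D 1, D 0] :=
      step hP h0 h0 [B 0] [B 1, D 0] [] [B 0, X 0, D 1, D 0] (Move.zigzag_left 0)
        rfl rfl rfl rfl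
    have e3 : a * P [B 0, B 0, X 0, D 1, D 0] = P [B 0, B 0, D 1, D 0] :=
      kink_birth hP hF h0 h0 [B 0] [D 1, D 0] 0 rfl rfl rfl rfl rfl
    rw [e1, e2, e3, c2, hN]
  have i2 : P [B 0, B 1, B 2, D 0, Y 0, D 1, D 0] = a := by
    have e1 : P [B 0, B 1, B 2, D 0, Y 0, D 1, D 0] = P [B 0, B 1, D 0, B 0, Y 0, D 1, D 0] :=
      step hP h0 h0 [B 0, B 1] [B 2, D 0] [D 0, B 0] [Y 0, D 1, D 0]
        (Move.interchange death birth 0 0) rfl rfl rfl rfl
    have e2 : P [B 0, B 1, D 0, B 0, Y 0, D 1, D 0] = P [B 0, B 0, Y 0, D 1, D 0] :=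
      step hP h0 h0 [B 0] [B 1, D 0] [] [B 0, Y 0, D 1, D 0] (Move.zigzag_left 0)
        rfl rfl rfl rfl
    have e3 : P [B 0, B 0, Y 0, D 1, D 0] = a * P [B 0, B 0, D 1, D 0] :=
      hF.1 [B 0] [D 1, D 0] 0 (fits_of_run _ _ _ rfl)
    rw [e1, e2, e3, c2, hN, mul_one]
  have r1 : P [B 0, B 1, Y 0, X 0, D 1, D 0] = P [B 0, B 1, D 1, D 0] :=
    step hP h0 h0 [B 0, B 1] [Y 0, X 0] [] [D 1, D 0] (Move.r2_left 0) rfl rfl rfl rfl
  have r2 : P [B 0, B 1, X 0, Y 0, D 1, D 0] = P [B 0, B 1, D 1, D 0] :=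
    step hP h0 h0 [B 0, B 1] [X 0, Y 0] [] [D 1, D 0] (Move.r2_right 0) rfl rfl rfl rfl
  have hh := hopf hP hF
  -- the three relations
  have q0 := four_strand hP hF hS (v := [D 1, D 0]) (fits_of_run _ _ _ rfl)
  have q1 := four_strand hP hF hS (v := [X 0, D 1, D 0]) (fits_of_run _ _ _ rfl)
  have q2 := four_strand hP hF hS (v := [Y 0, D 1, D 0]) (fits_of_run _ _ _ rfl)
  simp only [cups, List.cons_append, List.nil_append] at q0 q1 q2
  rw [i0, t1] at q0
  rw [t1, r1, hh] at q1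
  rw [i2, r2] at q2
  linear_combination
    a ^ 2 * (b1 - b2 * b3) * (a + b3 ^ 3) * q1
      - a * (b1 - b2 * b3) ^ 2 * (a + b3 ^ 3) * b3 * i1
      - a ^ 2 * (b1 - b2 * b3) * (a * b2 + b1 * b3 ^ 2) * q2
      - a ^ 2 * (b1 - b2 * b3) ^ 2 * (a * b2 + b1 * b3 ^ 2) * t2
      - ((a + b3 ^ 3) ^ 2 - (a * b2 + b1 * b3 ^ 2) ^ 2) * a * q0
      - ((a + b3 ^ 3) ^ 2 - (a * b2 + b1 * b3 ^ 2) ^ 2) * (a + b3 ^ 3) * t2

end

/-- The obstruction, as a polynomial in `a`, `x`, `y`. -/
noncomputable def obstructionPoly : MvPolynomial (Fin 3) ℤ :=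
  let a : MvPolynomial (Fin 3) ℤ := MvPolynomial.X 0
  let x : MvPolynomial (Fin 3) ℤ := MvPolynomial.X 1
  let y : MvPolynomial (Fin 3) ℤ := MvPolynomial.X 2
  let b1 : MvPolynomial (Fin 3) ℤ := a * x
  let b2 : MvPolynomial (Fin 3) ℤ := a ^ 2 * y
  let b3 : MvPolynomial (Fin 3) ℤ := -(a ^ 3 * (x + y + 1))
  a * (b1 - b2 * b3) ^ 2 * ((a + b3 ^ 3) * (b3 - a ^ 3)
        - a * (a * b2 + b1 * b3 ^ 2) * (a * b3 - 1))
      - ((a + b3 ^ 3) ^ 2 - (a * b2 + b1 * b3 ^ 2) ^ 2)
        * (a * (b1 - b2 * b3) * b3 - a ^ 2 * (a * b2 + b1 * b3 ^ 2) - (a + b3 ^ 3))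

lemma obstructionPoly_ne_zero : obstructionPoly ≠ 0 := by
  intro h
  have h0 : (![2, 1, 1] : Fin 3 → ℤ) 0 = 2 := rfl
  have h1 : (![2, 1, 1] : Fin 3 → ℤ) 1 = 1 := rfl
  have h2 : (![2, 1, 1] : Fin 3 → ℤ) 2 = 1 := rfl
  have := congrArg (MvPolynomial.eval ![2, 1, 1]) h
  simp only [obstructionPoly, map_sub, map_mul, map_add, map_pow, map_neg, MvPolynomial.eval_X,
    map_one, map_zero, h0, h1, h2] at this
  norm_num at this

/-- **No invariant as in part (c) exists.**  Let `R` be a commutative ring and let `a, x, y` be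
algebraically independent over the integers. No function `P` on framed unoriented link diagrams
with values in `R` is a framed isotopy invariant with `P = 1` on the trivial knot, multiplied by `a`
by a positive kink, and satisfying
`P(L₀) + a x P(L₁) + a² y P(L₂) - a³ (x + y + 1) P(L₃) = 0`. -/
theorem result {R : Type*} [CommRing R] (a x y : R) (h : AlgebraicIndependent ℤ ![a, x, y]) :
    ¬ ∃ P : Word → R, IsFramedInvariant P ∧ P [(Piece.birth, 0), (Piece.death, 0)] = 1 ∧
      Framing a P ∧ Skein 1 (a * x) (a ^ 2 * y) (-(a ^ 3 * (x + y + 1))) P := by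
  rintro ⟨P, hP, hN, hF, hS⟩
  refine obstructionPoly_ne_zero (algebraicIndependent_iff.1 h obstructionPoly ?_)
  have := obstruction hP hF hS hN
  simp only [obstructionPoly, map_sub, map_mul, map_add, map_pow, map_neg, MvPolynomial.aeval_X,
    map_one]
  simpa using this

end Pool.Agent.Results.MP_118c6a_gt.NoInvariantPartC
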